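import Mathlib

set_option autoImplicit false
open Cardinal Set Filter Topology MeasureTheory

namespace Pool.Agent.Results.MP_6f516b_lc.Sacks

def InR (X : Set (ℕ → Bool)) : Prop :=
  ∀ d : ℕ → ℕ, StrictMono d → d 0 = 0 →
    ∃ B : ∀ m : ℕ, Finset (Ico (d m) (d (m + 1)) → Bool), (∀ m, (B m).card ≤ m) ∧
      ∀ x ∈ X, ∀ᶠ m in atTop, (fun i : Ico (d m) (d (m + 1)) => x i) ∈ B m

def cut (k : ℕ) (x : ℕ → Bool) : ℕ → Bool := fun i => if i < k then x i else false

lemma unif {f : (ℕ → Bool) → ℝ} (hf : Continuous f) {e : ℝ} (he : 0 < e) :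
    ∃ k0, ∀ k, k0 ≤ k → ∀ x, dist (f x) (f (cut k x)) < e := by
  have h : {p : ℕ × (ℕ → Bool) | dist (f p.2) (f (cut p.1 p.2)) < e} ∈ atTop ×ˢ 𝓝ˢ Set.univ := by
    refine isCompact_univ.mem_prod_nhdsSet_of_forall fun x _ => ?_
    have h1 : Tendsto (fun p : ℕ × (ℕ → Bool) => cut p.1 p.2) (atTop ×ˢ 𝓝 x) (𝓝 x) := by
      refine tendsto_pi_nhds.2 fun i => ?_
      refine (((continuous_apply i).tendsto x).comp tendsto_snd).congr' ?_
      filter_upwards [tendsto_fst.eventually (eventually_gt_atTop i)] with p hp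
      simp [cut, hp]
    have h2 := ((hf.tendsto x).comp tendsto_snd).dist ((hf.tendsto x).comp h1)
    rw [dist_self] at h2
    exact h2.eventually (gt_mem_nhds he)
  obtain ⟨s, hs, t, ht, h⟩ := mem_prod_iff.1 h
  obtain ⟨k0, hk⟩ := mem_atTop_sets.1 hs
  exact ⟨k0, fun k h1 x => h (mk_mem_prod (hk k h1) (subset_of_mem_nhdsSet ht (mem_univ x)))⟩

lemma null {X : Set (ℕ → Bool)} (hX : InR X) {f : (ℕ → Bool) → ℝ} (hf : Continuous f) :
    volume (f '' X) = 0 := by
  classical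
  choose k hk using fun m : ℕ => unif hf (e := 1 / ((m + 1).factorial : ℝ)) (by positivity)
  let d : ℕ → ℕ := fun m => ∑ i ∈ Finset.range m, (k (i + 1) + 1)
  have hd : StrictMono d := strictMono_nat_of_lt_succ fun m => by
    simp only [d, Finset.sum_range_succ]; omega
  have hd2 : ∀ m, k (m + 1) ≤ d (m + 1) := fun m => by
    simp only [d, Finset.sum_range_succ]; omega
  obtain ⟨B, b1, b2⟩ := hX d hd rfl
  let Y : ℕ → Set (ℕ → Bool) := fun n =>
    {x | ∀ m, n ≤ m → (fun i : Ico (d m) (d (m + 1)) => x i) ∈ B m}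
  refine measure_mono_null (t := ⋃ n, f '' Y n) ?_ (measure_iUnion_null fun n => ?_)
  · rintro _ ⟨x, hx, rfl⟩
    obtain ⟨n, hn⟩ := eventually_atTop.1 (b2 x hx)
    exact mem_iUnion.2 ⟨n, x, hn, rfl⟩
  have hc : ∃ C : ℕ, ∀ m, n ≤ m → ∃ T : Finset (ℕ → Bool), T.card ≤ C * m.factorial ∧
      ∀ x ∈ Y n, cut (d m) x ∈ T := by
    let T0 : Finset (ℕ → Bool) := Finset.univ.image fun s : Fin (d n) → Bool =>
      fun i => if h : i < d n then s ⟨i, h⟩ else false
    refine ⟨T0.card, fun m hm => ?_⟩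
    induction m, hm using Nat.le_induction with
    | base =>
      refine ⟨T0, Nat.le_mul_of_pos_right _ n.factorial_pos, fun x _ => Finset.mem_image.2
        ⟨fun i => x i, Finset.mem_univ _, funext fun i => ?_⟩⟩
      by_cases h : i < d n <;> simp [cut, h]
    | succ m hm ih =>
      obtain ⟨T, t1, t2⟩ := ih
      refine ⟨(T ×ˢ B m).image fun p i => if h : i ∈ Ico (d m) (d (m + 1)) then p.2 ⟨i, h⟩
        else p.1 i, Finset.card_image_le.trans ?_, fun x hx => Finset.mem_image.2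
          ⟨(cut (d m) x, fun i => x i), Finset.mem_product.2 ⟨t2 x hx, hx m hm⟩,
            funext fun i => ?_⟩⟩
      · rw [Finset.card_product, Nat.factorial_succ]
        calc _ ≤ T0.card * m.factorial * (m + 1) := Nat.mul_le_mul t1 ((b1 m).trans m.le_succ)
          _ = _ := by ring
      · have := hd m.lt_succ_self
        by_cases h : i ∈ Ico (d m) (d (m + 1))
        · simp [cut, h, h.2]
        · simp only [h, dite_false, cut]
          simp only [mem_Ico, not_and, not_lt] at h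
          by_cases h1 : i < d m
          · simp [h1, h1.trans this]
          · simp [h1, not_lt.2 (h (not_lt.1 h1))]
  obtain ⟨C, hC⟩ := hc
  have hl : Tendsto (fun m : ℕ => ENNReal.ofReal (2 * C * (1 / ((m : ℝ) + 1)))) atTop (𝓝 0) := by
    simpa using ENNReal.tendsto_ofReal
      (tendsto_one_div_add_atTop_nhds_zero_nat.const_mul (2 * C : ℝ))
  refine le_antisymm (ge_of_tendsto hl ?_) zero_le
  filter_upwards [eventually_ge_atTop (n + 1)] with m hm
  obtain ⟨T, t1, t2⟩ := hC m (by omega)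
  obtain ⟨j, rfl⟩ : ∃ j, m = j + 1 := ⟨m - 1, by omega⟩
  refine (measure_mono (t := ⋃ t ∈ T, Metric.ball (f t) (1 / ((j + 1 + 1).factorial : ℝ))) ?_).trans
    ((measure_biUnion_finset_le _ _).trans ?_)
  · rintro _ ⟨x, hx, rfl⟩
    exact mem_iUnion₂.2 ⟨_, t2 x hx, hk _ _ (hd2 j) x⟩
  · simp only [Real.volume_ball, Finset.sum_const, nsmul_eq_mul]
    rw [← ENNReal.ofReal_natCast, ← ENNReal.ofReal_mul (Nat.cast_nonneg _)]
    refine ENNReal.ofReal_le_ofReal ?_
    have h1 : (T.card : ℝ) ≤ C * (j + 1).factorial := by exact_mod_cast t1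
    refine (mul_le_mul_of_nonneg_right h1 (by positivity)).trans (le_of_eq ?_)
    rw [Nat.factorial_succ (j + 1)]
    have : (0 : ℝ) < (j + 1).factorial := by positivity
    push_cast
    field_simp

theorem result
    (hA : ∀ S : Set (ℕ → Bool), #S = continuum →
      ∃ f : (ℕ → Bool) → ℝ, Continuous f ∧ Icc (0 : ℝ) 1 ⊆ f '' S)
    (F : Set (Set (ℕ → Bool))) (h1 : ∀ X ∈ F, InR X) (h2 : ⋃₀ F = Set.univ) :
    continuum.ord.cof ≤ #F := by
  have hc : #(ℕ → Bool) = continuum := by simp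
  have hs : ∀ X : F, #X.1 < continuum := fun X => lt_of_le_of_ne (hc ▸ mk_set_le _) fun h => by
    obtain ⟨f, f1, f2⟩ := hA _ h
    simpa using measure_mono_null f2 (null (h1 _ X.2) f1)
  by_contra h
  have h3 := (mk_iUnion_le (fun X : F => X.1)).trans_lt (mul_lt_of_lt aleph0_le_continuum
    ((not_le.1 h).trans_le (Ordinal.cof_ord_le _)) (iSup_lt_of_lt_cof_ord (not_le.1 h) hs))
  rw [← sUnion_eq_iUnion, h2, mk_univ, hc] at h3
  exact lt_irrefl _ h3

end Pool.Agent.Results.MP_6f516b_lc.Sacks
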